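import Pool.Agent.H717.PR.Stm

/-!
# From orderings to marks
-/

set_option autoImplicit false

namespace Pool.Agent.H807.PR

open Pool.Agent.NPC Pool.Agent.H622R2 Pool.Agent.V11227.BT Pool.Agent.H717.PR

/-- left end points -/
def al (Z : ℕ → ℤ) (m : ℕ) (G : ℤ) (T : ℕ → ℕ × ℕ × ℕ) (u : Lb) : ℤ :=
  if u.1 = 0 then Z u.2 else
  if u.1 = 1 then Z u.2 + 2 * m + 2 - G else
  if u.1 = 2 then Z u.2 + 2 * m + 4 else
  if u.1 = 3 then min (Z (T u.2).1) (Z (T u.2).2.1) + 2 * m + 6 + u.2 else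
    min (Z (T u.2).2.1) (Z (T u.2).2.2) + 3 * m + 6 + u.2

/-- right end points -/
def be (Z : ℕ → ℤ) (m : ℕ) (G : ℤ) (T : ℕ → ℕ × ℕ × ℕ) (u : Lb) : ℤ :=
  if u.1 = 0 then Z u.2 + 4 * m + 8 else
  if u.1 = 1 then Z u.2 + 2 * m + 2 else
  if u.1 = 2 then Z u.2 + 2 * m + 4 + G else
  if u.1 = 3 then max (Z (T u.2).1) (Z (T u.2).2.1) + 1 + u.2 else
    max (Z (T u.2).2.1) (Z (T u.2).2.2) + m + 1 + u.2

theorem mem_base {I : Inst} {u : Lb} : u ∈ base I ↔
    ((u.1 = 0 ∨ u.1 = 1 ∨ u.1 = 2) ∧ u.2 ∈ I.1) ∨ ((u.1 = 3 ∨ u.1 = 4) ∧ u.2 < I.2.length) := by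
  obtain ⟨k, i⟩ := u
  unfold base
  simp only [List.mem_append, List.mem_map, List.mem_range, Prod.mk.injEq]
  constructor
  · rintro (⟨x, h, h1, h2⟩ | ⟨x, h, h1, h2⟩ | ⟨x, h, h1, h2⟩ | ⟨x, h, h1, h2⟩ | ⟨x, h, h1, h2⟩)
    · exact Or.inl ⟨Or.inl h1.symm, h2 ▸ h⟩
    · exact Or.inl ⟨Or.inr (Or.inl h1.symm), h2 ▸ h⟩
    · exact Or.inl ⟨Or.inr (Or.inr h1.symm), h2 ▸ h⟩
    · exact Or.inr ⟨Or.inl h1.symm, h2 ▸ h⟩
    · exact Or.inr ⟨Or.inr h1.symm, h2 ▸ h⟩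
  · rintro (⟨h1 | h1 | h1, h⟩ | ⟨h1 | h1, h⟩)
    · exact Or.inl ⟨i, h, h1.symm, rfl⟩
    · exact Or.inr (Or.inl ⟨i, h, h1.symm, rfl⟩)
    · exact Or.inr (Or.inr (Or.inl ⟨i, h, h1.symm, rfl⟩))
    · exact Or.inr (Or.inr (Or.inr (Or.inl ⟨i, h, h1.symm, rfl⟩)))
    · exact Or.inr (Or.inr (Or.inr (Or.inr ⟨i, h, h1.symm, rfl⟩)))

theorem mem_lo {I : Inst} {k i : ℕ} (h : (k, i) ∈ base I) (hk : k ≤ 2) : i ∈ I.1 := by
  rcases mem_base.1 h with ⟨-, h2⟩ | ⟨h1, -⟩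
  · exact h2
  · simp only at h1
    omega

theorem mem_hi {I : Inst} {k i : ℕ} (h : (k, i) ∈ base I) (hk : 3 ≤ k) : i < I.2.length := by
  rcases mem_base.1 h with ⟨h1, -⟩ | ⟨-, h2⟩
  · simp only at h1
    omega
  · exact h2

/-- the properties of the positions which are used -/
structure Pos (I : Inst) (Z : ℕ → ℤ) (G : ℤ) : Prop where
  sep : ∀ x ∈ I.1, ∀ y ∈ I.1, (x = y ∧ Z x = Z y) ∨ Z x + (4 * (I.2.length : ℤ) + 20) ≤ Z y ∨
    Z y + (4 * (I.2.length : ℤ) + 20) ≤ Z x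
  bd : ∀ x ∈ I.1, 0 ≤ Z x ∧ Z x + 10 * (I.2.length : ℤ) + 100 < G
  el : ∀ i < I.2.length, (tr I i).1 ∈ I.1 ∧ (tr I i).2.1 ∈ I.1 ∧ (tr I i).2.2 ∈ I.1
  mid : ∀ i < I.2.length, (Z (tr I i).1 + (4 * (I.2.length : ℤ) + 20) ≤ Z (tr I i).2.1 ∧
      Z (tr I i).2.1 + (4 * (I.2.length : ℤ) + 20) ≤ Z (tr I i).2.2) ∨
    (Z (tr I i).2.2 + (4 * (I.2.length : ℤ) + 20) ≤ Z (tr I i).2.1 ∧
      Z (tr I i).2.1 + (4 * (I.2.length : ℤ) + 20) ≤ Z (tr I i).1)

section
variable {I : Inst} {Z : ℕ → ℤ} {G : ℤ}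

/-- normal form of the end points -/
theorem nf (hP : Pos I Z G) {u : Lb} (hu : u ∈ base I) : ∃ x ∈ I.1, ∃ y ∈ I.1,
    (u.1 = 0 ∧ x = u.2 ∧ y = u.2 ∧ Z x = Z y ∧ al Z I.2.length G (tr I) u = Z x ∧
      be Z I.2.length G (tr I) u = Z y + 4 * I.2.length + 8) ∨
    (u.1 = 1 ∧ x = u.2 ∧ y = u.2 ∧ Z x = Z y ∧
      al Z I.2.length G (tr I) u = Z x + 2 * I.2.length + 2 - G ∧
      be Z I.2.length G (tr I) u = Z y + 2 * I.2.length + 2) ∨
    (u.1 = 2 ∧ x = u.2 ∧ y = u.2 ∧ Z x = Z y ∧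
      al Z I.2.length G (tr I) u = Z x + 2 * I.2.length + 4 ∧
      be Z I.2.length G (tr I) u = Z y + 2 * I.2.length + 4 + G) ∨
    (u.1 = 3 ∧ u.2 < I.2.length ∧ Z x + (4 * (I.2.length : ℤ) + 20) ≤ Z y ∧
      al Z I.2.length G (tr I) u = Z x + 2 * I.2.length + 6 + u.2 ∧
      be Z I.2.length G (tr I) u = Z y + 1 + u.2) ∨
    (u.1 = 4 ∧ u.2 < I.2.length ∧ Z x + (4 * (I.2.length : ℤ) + 20) ≤ Z y ∧
      al Z I.2.length G (tr I) u = Z x + 3 * I.2.length + 6 + u.2 ∧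
      be Z I.2.length G (tr I) u = Z y + I.2.length + 1 + u.2) := by
  obtain ⟨k, i⟩ := u
  rcases mem_base.1 hu with ⟨h1 | h1 | h1, h⟩ | ⟨h1 | h1, h⟩
  · simp only at h1 h
    subst h1
    exact ⟨i, h, i, h, Or.inl ⟨rfl, rfl, rfl, rfl, rfl, rfl⟩⟩
  · simp only at h1 h
    subst h1
    exact ⟨i, h, i, h, Or.inr (Or.inl ⟨rfl, rfl, rfl, rfl, rfl, rfl⟩)⟩
  · simp only at h1 h
    subst h1
    exact ⟨i, h, i, h, Or.inr (Or.inr (Or.inl ⟨rfl, rfl, rfl, rfl, rfl, rfl⟩))⟩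
  · simp only at h1 h
    subst h1
    obtain ⟨e1, e2, e3⟩ := hP.el i h
    have ha : al Z I.2.length G (tr I) (3, i) =
        min (Z (tr I i).1) (Z (tr I i).2.1) + 2 * I.2.length + 6 + i := rfl
    have hb : be Z I.2.length G (tr I) (3, i) =
        max (Z (tr I i).1) (Z (tr I i).2.1) + 1 + i := rfl
    rw [ha, hb]
    rcases hP.mid i h with ⟨m1, m2⟩ | ⟨m1, m2⟩
    · refine ⟨_, e1, _, e2, Or.inr (Or.inr (Or.inr (Or.inl ⟨rfl, h, m1, ?_, ?_⟩)))⟩ <;> omega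
    · refine ⟨_, e2, _, e1, Or.inr (Or.inr (Or.inr (Or.inl ⟨rfl, h, m2, ?_, ?_⟩)))⟩ <;> omega
  · simp only at h1 h
    subst h1
    obtain ⟨e1, e2, e3⟩ := hP.el i h
    have ha : al Z I.2.length G (tr I) (4, i) =
        min (Z (tr I i).2.1) (Z (tr I i).2.2) + 3 * I.2.length + 6 + i := rfl
    have hb : be Z I.2.length G (tr I) (4, i) =
        max (Z (tr I i).2.1) (Z (tr I i).2.2) + I.2.length + 1 + i := rfl
    rw [ha, hb]
    rcases hP.mid i h with ⟨m1, m2⟩ | ⟨m1, m2⟩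
    · refine ⟨_, e2, _, e3, Or.inr (Or.inr (Or.inr (Or.inr ⟨rfl, h, m2, ?_, ?_⟩)))⟩ <;> omega
    · refine ⟨_, e3, _, e2, Or.inr (Or.inr (Or.inr (Or.inr ⟨rfl, h, m1, ?_, ?_⟩)))⟩ <;> omega

theorem ne_iff' {u v : Lb} (h : u ≠ v) : u.1 ≠ v.1 ∨ u.2 ≠ v.2 := by
  by_contra hh
  push Not at hh
  exact h (Prod.ext hh.1 hh.2)

theorem m_lt (hP : Pos I Z G) {u : Lb} (hu : u ∈ base I) :
    al Z I.2.length G (tr I) u < be Z I.2.length G (tr I) u := by
  obtain ⟨x, hx, y, hy, h⟩ := nf hP hu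
  have b1 := hP.bd x hx
  omega

theorem m_aa (hP : Pos I Z G) {u v : Lb} (hu : u ∈ base I) (hv : v ∈ base I) (huv : u ≠ v) :
    al Z I.2.length G (tr I) u ≠ al Z I.2.length G (tr I) v := by
  obtain ⟨x, hx, y, hy, h⟩ := nf hP hu
  obtain ⟨x', hx', y', hy', h'⟩ := nf hP hv
  have b1 := hP.bd x hx
  have b2 := hP.bd x' hx'
  have s := hP.sep x hx x' hx'
  have hne := ne_iff' huv
  rcases h with h | h | h | h | h <;> rcases h' with h' | h' | h' | h' | h' <;> omega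

theorem m_bb (hP : Pos I Z G) {u v : Lb} (hu : u ∈ base I) (hv : v ∈ base I) (huv : u ≠ v) :
    be Z I.2.length G (tr I) u ≠ be Z I.2.length G (tr I) v := by
  obtain ⟨x, hx, y, hy, h⟩ := nf hP hu
  obtain ⟨x', hx', y', hy', h'⟩ := nf hP hv
  have b1 := hP.bd y hy
  have b2 := hP.bd y' hy'
  have s := hP.sep y hy y' hy'
  have hne := ne_iff' huv
  rcases h with h | h | h | h | h <;> rcases h' with h' | h' | h' | h' | h' <;> omega

theorem m_ab (hP : Pos I Z G) {u v : Lb} (hu : u ∈ base I) (hv : v ∈ base I) :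
    al Z I.2.length G (tr I) u ≠ be Z I.2.length G (tr I) v := by
  obtain ⟨x, hx, y, hy, h⟩ := nf hP hu
  obtain ⟨x', hx', y', hy', h'⟩ := nf hP hv
  have b1 := hP.bd x hx
  have b2 := hP.bd y' hy'
  have s := hP.sep x hx y' hy'
  rcases h with h | h | h | h | h <;> rcases h' with h' | h' | h' | h' | h' <;> omega

theorem nearB_iff {u v : Lb} : nearB I u v = true ↔
    (u.1 = 1 ∧ v.1 = 1 ∧ u.2 ≠ v.2) ∨ (u.1 = 2 ∧ v.1 = 2 ∧ u.2 ≠ v.2) ∨
    (u.1 = 1 ∧ v.1 = 0 ∧ u.2 = v.2) ∨ (u.1 = 2 ∧ v.1 = 0 ∧ u.2 = v.2) ∨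
    (u.1 = 3 ∧ v.1 = 0 ∧ (v.2 = (tr I u.2).1 ∨ v.2 = (tr I u.2).2.1)) ∨
    (u.1 = 4 ∧ v.1 = 0 ∧ (v.2 = (tr I u.2).2.1 ∨ v.2 = (tr I u.2).2.2)) := by
  unfold nearB
  simp only [Bool.or_eq_true, Bool.and_eq_true, decide_eq_true_eq, Bool.not_eq_true',
    decide_eq_false_iff_not, ne_eq]

theorem farB_iff {u v : Lb} : farB I u v = true ↔
    (u.1 = 0 ∧ v.1 = 0 ∧ u.2 ≠ v.2) ∨ (u.1 = 1 ∧ v.1 = 2 ∧ u.2 = v.2) ∨
    (u.1 = 3 ∧ v.1 = 0 ∧ v.2 = (tr I u.2).2.2) ∨ (u.1 = 4 ∧ v.1 = 0 ∧ v.2 = (tr I u.2).1) := by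
  unfold farB
  simp only [Bool.or_eq_true, Bool.and_eq_true, decide_eq_true_eq, Bool.not_eq_true',
    decide_eq_false_iff_not, ne_eq]

theorem m_nearB (hP : Pos I Z G) {u v : Lb} (hu : u ∈ base I) (hv : v ∈ base I)
    (h : nearB I u v = true) :
    (al Z I.2.length G (tr I) u < al Z I.2.length G (tr I) v ∧
      al Z I.2.length G (tr I) v < be Z I.2.length G (tr I) u ∧
      be Z I.2.length G (tr I) u < be Z I.2.length G (tr I) v) ∨
    (al Z I.2.length G (tr I) v < al Z I.2.length G (tr I) u ∧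
      al Z I.2.length G (tr I) u < be Z I.2.length G (tr I) v ∧
      be Z I.2.length G (tr I) v < be Z I.2.length G (tr I) u) := by
  obtain ⟨k, i⟩ := u
  obtain ⟨l, j⟩ := v
  rw [nearB_iff] at h
  simp only at h
  rcases h with ⟨rfl, rfl, hij⟩ | ⟨rfl, rfl, hij⟩ | ⟨rfl, rfl, rfl⟩ | ⟨rfl, rfl, rfl⟩ |
    ⟨rfl, rfl, hj⟩ | ⟨rfl, rfl, hj⟩
  · have hi : i ∈ I.1 := mem_lo hu (by omega)
    have hj : j ∈ I.1 := mem_lo hv (by omega)
    have a1 : al Z I.2.length G (tr I) (1, i) = Z i + 2 * I.2.length + 2 - G := rfl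
    have a2 : al Z I.2.length G (tr I) (1, j) = Z j + 2 * I.2.length + 2 - G := rfl
    have a3 : be Z I.2.length G (tr I) (1, i) = Z i + 2 * I.2.length + 2 := rfl
    have a4 : be Z I.2.length G (tr I) (1, j) = Z j + 2 * I.2.length + 2 := rfl
    have s := hP.sep i hi j hj
    have b1 := hP.bd i hi
    have b2 := hP.bd j hj
    omega
  · have hi : i ∈ I.1 := mem_lo hu (by omega)
    have hj : j ∈ I.1 := mem_lo hv (by omega)
    have a1 : al Z I.2.length G (tr I) (2, i) = Z i + 2 * I.2.length + 4 := rfl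
    have a2 : al Z I.2.length G (tr I) (2, j) = Z j + 2 * I.2.length + 4 := rfl
    have a3 : be Z I.2.length G (tr I) (2, i) = Z i + 2 * I.2.length + 4 + G := rfl
    have a4 : be Z I.2.length G (tr I) (2, j) = Z j + 2 * I.2.length + 4 + G := rfl
    have s := hP.sep i hi j hj
    have b1 := hP.bd i hi
    have b2 := hP.bd j hj
    omega
  · have hi : i ∈ I.1 := mem_lo hu (by omega)
    have a1 : al Z I.2.length G (tr I) (1, i) = Z i + 2 * I.2.length + 2 - G := rfl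
    have a2 : al Z I.2.length G (tr I) (0, i) = Z i := rfl
    have a3 : be Z I.2.length G (tr I) (1, i) = Z i + 2 * I.2.length + 2 := rfl
    have a4 : be Z I.2.length G (tr I) (0, i) = Z i + 4 * I.2.length + 8 := rfl
    have b1 := hP.bd i hi
    omega
  · have hi : i ∈ I.1 := mem_lo hu (by omega)
    have a1 : al Z I.2.length G (tr I) (2, i) = Z i + 2 * I.2.length + 4 := rfl
    have a2 : al Z I.2.length G (tr I) (0, i) = Z i := rfl
    have a3 : be Z I.2.length G (tr I) (2, i) = Z i + 2 * I.2.length + 4 + G := rfl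
    have a4 : be Z I.2.length G (tr I) (0, i) = Z i + 4 * I.2.length + 8 := rfl
    have b1 := hP.bd i hi
    omega
  · have hi : i < I.2.length := mem_hi hu (by omega)
    have a1 : al Z I.2.length G (tr I) (3, i) =
        min (Z (tr I i).1) (Z (tr I i).2.1) + 2 * I.2.length + 6 + i := rfl
    have a3 : be Z I.2.length G (tr I) (3, i) =
        max (Z (tr I i).1) (Z (tr I i).2.1) + 1 + i := rfl
    have hm := hP.mid i hi
    rcases hj with hj | hj <;> subst hj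
    · have a2 : al Z I.2.length G (tr I) (0, (tr I i).1) = Z (tr I i).1 := rfl
      have a4 : be Z I.2.length G (tr I) (0, (tr I i).1) = Z (tr I i).1 + 4 * I.2.length + 8 := rfl
      omega
    · have a2 : al Z I.2.length G (tr I) (0, (tr I i).2.1) = Z (tr I i).2.1 := rfl
      have a4 : be Z I.2.length G (tr I) (0, (tr I i).2.1) =
        Z (tr I i).2.1 + 4 * I.2.length + 8 := rfl
      omega
  · have hi : i < I.2.length := mem_hi hu (by omega)
    have a1 : al Z I.2.length G (tr I) (4, i) =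
        min (Z (tr I i).2.1) (Z (tr I i).2.2) + 3 * I.2.length + 6 + i := rfl
    have a3 : be Z I.2.length G (tr I) (4, i) =
        max (Z (tr I i).2.1) (Z (tr I i).2.2) + I.2.length + 1 + i := rfl
    have hm := hP.mid i hi
    rcases hj with hj | hj <;> subst hj
    · have a2 : al Z I.2.length G (tr I) (0, (tr I i).2.1) = Z (tr I i).2.1 := rfl
      have a4 : be Z I.2.length G (tr I) (0, (tr I i).2.1) =
        Z (tr I i).2.1 + 4 * I.2.length + 8 := rfl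
      omega
    · have a2 : al Z I.2.length G (tr I) (0, (tr I i).2.2) = Z (tr I i).2.2 := rfl
      have a4 : be Z I.2.length G (tr I) (0, (tr I i).2.2) =
        Z (tr I i).2.2 + 4 * I.2.length + 8 := rfl
      omega

theorem m_farB (hP : Pos I Z G) {u v : Lb} (hu : u ∈ base I) (hv : v ∈ base I)
    (h : farB I u v = true) :
    be Z I.2.length G (tr I) u < al Z I.2.length G (tr I) v ∨
    be Z I.2.length G (tr I) v < al Z I.2.length G (tr I) u := by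
  obtain ⟨k, i⟩ := u
  obtain ⟨l, j⟩ := v
  rw [farB_iff] at h
  simp only at h
  rcases h with ⟨rfl, rfl, hij⟩ | ⟨rfl, rfl, rfl⟩ | ⟨rfl, rfl, hj⟩ | ⟨rfl, rfl, hj⟩
  · have hi : i ∈ I.1 := mem_lo hu (by omega)
    have hj : j ∈ I.1 := mem_lo hv (by omega)
    have a1 : al Z I.2.length G (tr I) (0, i) = Z i := rfl
    have a2 : al Z I.2.length G (tr I) (0, j) = Z j := rfl
    have a3 : be Z I.2.length G (tr I) (0, i) = Z i + 4 * I.2.length + 8 := rfl
    have a4 : be Z I.2.length G (tr I) (0, j) = Z j + 4 * I.2.length + 8 := rfl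
    have s := hP.sep i hi j hj
    omega
  · have a1 : al Z I.2.length G (tr I) (2, i) = Z i + 2 * I.2.length + 4 := rfl
    have a3 : be Z I.2.length G (tr I) (1, i) = Z i + 2 * I.2.length + 2 := rfl
    omega
  · have hi : i < I.2.length := mem_hi hu (by omega)
    subst hj
    have a1 : al Z I.2.length G (tr I) (3, i) =
        min (Z (tr I i).1) (Z (tr I i).2.1) + 2 * I.2.length + 6 + i := rfl
    have a3 : be Z I.2.length G (tr I) (3, i) =
        max (Z (tr I i).1) (Z (tr I i).2.1) + 1 + i := rfl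
    have a2 : al Z I.2.length G (tr I) (0, (tr I i).2.2) = Z (tr I i).2.2 := rfl
    have a4 : be Z I.2.length G (tr I) (0, (tr I i).2.2) = Z (tr I i).2.2 + 4 * I.2.length + 8 := rfl
    have hm := hP.mid i hi
    omega
  · have hi : i < I.2.length := mem_hi hu (by omega)
    subst hj
    have a1 : al Z I.2.length G (tr I) (4, i) =
        min (Z (tr I i).2.1) (Z (tr I i).2.2) + 3 * I.2.length + 6 + i := rfl
    have a3 : be Z I.2.length G (tr I) (4, i) =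
        max (Z (tr I i).2.1) (Z (tr I i).2.2) + I.2.length + 1 + i := rfl
    have a2 : al Z I.2.length G (tr I) (0, (tr I i).1) = Z (tr I i).1 := rfl
    have a4 : be Z I.2.length G (tr I) (0, (tr I i).1) = Z (tr I i).1 + 4 * I.2.length + 8 := rfl
    have hm := hP.mid i hi
    omega

theorem m_tau (hP : Pos I Z G) {u v : Lb} (hu : u ∈ base I) (hv : v ∈ base I) :
    al Z I.2.length G (tr I) u - be Z I.2.length G (tr I) v ≤ G := by
  obtain ⟨x, hx, y, hy, h⟩ := nf hP hu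
  obtain ⟨x', hx', y', hy', h'⟩ := nf hP hv
  have b1 := hP.bd x hx
  have b2 := hP.bd y' hy'
  rcases h with h | h | h | h | h <;> rcases h' with h' | h' | h' | h' | h' <;> omega

end

/-- the marks -/
theorem marks_of_pos {I : Inst} {Z : ℕ → ℤ} {G : ℤ} (hP : Pos I Z G) (hG : 1 ≤ G) {n : ℕ}
    (hn : ∀ x ∈ I.1, x < n) :
    Marks I (al Z I.2.length G (tr I)) (be Z I.2.length G (tr I))
      (fun u => 4 * G * (5 * u.2 + u.1 + 1)) G (4 * G * (5 * (n + I.2.length) + 5)) := by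
  have hb : ∀ u ∈ base I, u.1 ≤ 4 ∧ u.2 ≤ n + I.2.length := by
    intro u hu
    rcases mem_base.1 hu with ⟨h1, h2⟩ | ⟨h1, h2⟩
    · have := hn _ h2
      omega
    · omega
  refine ⟨fun u hu => m_lt hP hu, fun u hu v hv => m_aa hP hu hv, fun u hu v hv => m_bb hP hu hv,
    fun u hu v hv => m_ab hP hu hv, fun u hu v hv h => ?_, fun u hu v hv h => ?_,
    fun u hu v hv => m_tau hP hu hv, hG, fun u hu => ?_, fun u hu v hv huv => ?_⟩
  · unfold near at h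
    rw [Bool.or_eq_true] at h
    rcases h with h | h
    · exact m_nearB hP hu hv h
    · exact (m_nearB hP hv hu h).symm
  · unfold far at h
    rw [Bool.or_eq_true] at h
    rcases h with h | h
    · exact m_farB hP hu hv h
    · exact (m_farB hP hv hu h).symm
  · obtain ⟨h1, h2⟩ := hb u hu
    have h3 : (1 : ℤ) ≤ 5 * u.2 + u.1 + 1 := by omega
    have h4 : (5 * u.2 + u.1 + 1 : ℤ) ≤ 5 * (n + I.2.length) + 5 := by omega
    constructor
    · have := mul_le_mul_of_nonneg_left h3 (by omega : 0 ≤ 4 * G)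
      linarith
    · exact mul_le_mul_of_nonneg_left h4 (by omega)
  · obtain ⟨h1, h2⟩ := hb u hu
    obtain ⟨h3, h4⟩ := hb v hv
    have hne := ne_iff' huv
    have h5 : (5 * u.2 + u.1 + 1 : ℤ) + 1 ≤ 5 * v.2 + v.1 + 1 ∨
        (5 * v.2 + v.1 + 1 : ℤ) + 1 ≤ 5 * u.2 + u.1 + 1 := by omega
    rcases h5 with h5 | h5
    · left
      have := mul_le_mul_of_nonneg_left h5 (by omega : 0 ≤ 4 * G)
      linarith
    · right
      have := mul_le_mul_of_nonneg_left h5 (by omega : 0 ≤ 4 * G)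
      linarith

/-- **from orderings to marks** -/
theorem t_marks : S_marks := by
  rintro I ⟨⟨n, hn2, hI⟩, hT⟩ ⟨g, hinj, hmid⟩
  have hmem : ∀ x, x ∈ I.1 ↔ x < n := fun x => by rw [hI, List.mem_range]
  -- bounds of `g`
  obtain ⟨L, hL⟩ : ∃ L : ℤ, ∀ x < n, -L ≤ g x ∧ g x ≤ L := by
    refine ⟨∑ x ∈ Finset.range n, |g x|, fun x hx => ?_⟩
    have h1 : |g x| ≤ ∑ x ∈ Finset.range n, |g x| :=
      Finset.single_le_sum (f := fun x => |g x|) (fun i _ => abs_nonneg _) (Finset.mem_range.2 hx)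
    exact abs_le.1 h1
  set m : ℤ := (I.2.length : ℤ) with hm
  have hm0 : 0 ≤ m := by omega
  have hL0 : 0 ≤ L := by
    have := hL 0 (by omega)
    omega
  have key : ∀ a b : ℤ, a < b → (4 * m + 20) * (a + L) + (4 * m + 20) ≤ (4 * m + 20) * (b + L) := by
    intro a b hab
    have h1 : (4 * m + 20) * (a + 1) ≤ (4 * m + 20) * b :=
      mul_le_mul_of_nonneg_left (by omega) (by omega)
    linarith
  have htr : ∀ i < I.2.length, tr I i ∈ I.2 := by
    intro i hi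
    unfold tr
    rw [List.getD_eq_getElem _ _ hi]
    exact List.getElem_mem hi
  have hP : Pos I (fun x => (4 * m + 20) * (g x + L)) ((4 * m + 20) * (2 * L) + 10 * m + 101) := by
    refine ⟨fun x hx y hy => ?_, fun x hx => ?_, fun i hi => ?_, fun i hi => ?_⟩
    · rcases lt_trichotomy (g x) (g y) with h | h | h
      · exact Or.inr (Or.inl (key _ _ h))
      · refine Or.inl ⟨hinj hx hy h, ?_⟩
        simp only [h]
      · exact Or.inr (Or.inr (key _ _ h))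
    · obtain ⟨h1, h2⟩ := hL x ((hmem x).1 hx)
      refine ⟨mul_nonneg (by omega) (by omega), ?_⟩
      have h3 : (4 * m + 20) * (g x + L) ≤ (4 * m + 20) * (2 * L) :=
        mul_le_mul_of_nonneg_left (by omega) (by omega)
      show (4 * m + 20) * (g x + L) + 10 * (I.2.length : ℤ) + 100 < _
      omega
    · have h := hT _ (htr i hi)
      exact ⟨h.1, h.2.1, h.2.2.1⟩
    · rcases hmid _ (htr i hi) with ⟨h1, h2⟩ | ⟨h1, h2⟩
      · exact Or.inl ⟨key _ _ h1, key _ _ h2⟩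
      · exact Or.inr ⟨key _ _ h1, key _ _ h2⟩
  have hG : 1 ≤ (4 * m + 20) * (2 * L) + 10 * m + 101 := by
    have : 0 ≤ (4 * m + 20) * (2 * L) := mul_nonneg (by omega) (by omega)
    omega
  exact ⟨_, _, _, _, _, marks_of_pos hP hG fun x hx => (hmem x).1 hx⟩

end Pool.Agent.H807.PR
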